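import Pool.Agent.Helper28.T3E.StE

/-!
# Project T3E, module TDS: `TD (3 D) = -6 D S(D)`
-/

set_option autoImplicit false

namespace Pool.Agent.Helper56.T3E

open Pool.Agent.Helper28.T3E

private theorem chi3 {D : ℕ} (h : D % 12 = 5) : jacobiSym 3 D = -1 := by
  have h1 : jacobiSym (D : ℤ) 3 = jacobiSym ((3 : ℕ) : ℤ) D :=
    jacobiSym.quadratic_reciprocity_one_mod_four (by omega) (by decide)
  have h2 : jacobiSym (D : ℤ) 3 = -1 := by
    rw [jacobiSym.mod_left]
    have : (D : ℤ) % ((3 : ℕ) : ℤ) = 2 := by omega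
    rw [this]
    norm_num
  have h3 : jacobiSym ((3 : ℕ) : ℤ) D = -1 := by rw [← h1, h2]
  exact_mod_cast h3

private theorem chi_mul3 {D : ℕ} (h : D % 12 = 5) (a : ℤ) :
    jacobiSym (3 * a) D = - jacobiSym a D := by
  rw [jacobiSym.mul_left, chi3 h]
  ring

private theorem chi_congr {D : ℕ} {a b : ℤ} (h : (D : ℤ) ∣ a - b) : jacobiSym a D = jacobiSym b D :=
  jacobiSym.mod_left' (Int.emod_eq_emod_iff_emod_sub_eq_zero.2 (Int.emod_eq_zero_of_dvd h))

private theorem chi_neg {D : ℕ} (h : D % 12 = 5) (a : ℤ) : jacobiSym (-a) D = jacobiSym a D := by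
  rw [jacobiSym.neg a (by rw [Nat.odd_iff]; omega)]
  have : ZMod.χ₄ (D : ZMod 4) = 1 := by
    rw [ZMod.χ₄_nat_eq_if_mod_four]
    rw [if_neg (by omega), if_pos (by omega)]
  rw [this, one_mul]

private theorem chi_zero {D : ℕ} (h : 1 < D) : jacobiSym 0 D = 0 :=
  jacobiSym.zero_left h

/-- `j ↦ D - j`. -/
private theorem refl_sum {D : ℕ} (hD : 1 < D) (h : D % 12 = 5) (p q : ℕ → Prop) [DecidablePred p]
    [DecidablePred q] (hpq : ∀ j, 0 < j → j < D → (p j ↔ q (D - j))) :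
    (∑ j ∈ Finset.range D, if p j then jacobiSym (j : ℤ) D else 0) =
      ∑ j ∈ Finset.range D, if q j then jacobiSym (j : ℤ) D else 0 := by
  obtain ⟨E, rfl⟩ : ∃ E, D = E + 1 := ⟨D - 1, by omega⟩
  rw [Finset.sum_range_succ', Finset.sum_range_succ']
  have z : jacobiSym ((0 : ℕ) : ℤ) (E + 1) = 0 := by
    rw [Nat.cast_zero]; exact chi_zero hD
  rw [z, ite_self, ite_self, add_zero, add_zero]
  rw [← Finset.sum_range_reflect (fun j => if q (j + 1) then jacobiSym ((j + 1 : ℕ) : ℤ) (E + 1) else 0) E]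
  refine Finset.sum_congr rfl fun j hj => ?_
  have hj' : j < E := Finset.mem_range.1 hj
  have e1 : E - 1 - j + 1 = E + 1 - (j + 1) := by omega
  rw [e1]
  have e2 : jacobiSym ((E + 1 - (j + 1) : ℕ) : ℤ) (E + 1) = jacobiSym ((j + 1 : ℕ) : ℤ) (E + 1) := by
    rw [← chi_neg h ((j + 1 : ℕ) : ℤ)]
    refine chi_congr ⟨1, ?_⟩
    rw [Nat.cast_sub (by omega)]
    push_cast
    ring
  rw [e2]
  by_cases c : p (j + 1)
  · rw [if_pos c, if_pos ((hpq (j + 1) (by omega) (by omega)).1 c)]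
  · rw [if_neg c, if_neg (fun d => c ((hpq (j + 1) (by omega) (by omega)).2 d))]

/-- The sum over all classes vanishes. -/
private theorem tot {D : ℕ} (hD : 1 < D) (h : D % 12 = 5) :
    ∑ j ∈ Finset.range D, jacobiSym (j : ℤ) D = 0 := by
  have key : ∑ j ∈ Finset.range D, jacobiSym (j : ℤ) D =
      ∑ j ∈ Finset.range D, jacobiSym (3 * (j : ℤ)) D := by
    refine (Finset.sum_nbij' (fun u => 3 * u % D) (fun v => (D + 1) / 3 * v % D) ?_ ?_ ?_ ?_ ?_).symm
    · intro u _; exact Finset.mem_range.2 (Nat.mod_lt _ (by omega))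
    · intro u _; exact Finset.mem_range.2 (Nat.mod_lt _ (by omega))
    · intro u hu
      have hu' : u < D := Finset.mem_range.1 hu
      have h3 : (D + 1) / 3 * 3 = D + 1 := by omega
      change (D + 1) / 3 * (3 * u % D) % D = u
      rw [Nat.mul_mod, Nat.mod_mod, ← Nat.mul_mod, ← mul_assoc, h3, add_mul, one_mul,
        Nat.mul_add_mod, Nat.mod_eq_of_lt hu']
    · intro u hu
      have hu' : u < D := Finset.mem_range.1 hu
      have h3 : 3 * ((D + 1) / 3) = D + 1 := by omega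
      change 3 * ((D + 1) / 3 * u % D) % D = u
      rw [Nat.mul_mod, Nat.mod_mod, ← Nat.mul_mod, ← mul_assoc, h3, add_mul, one_mul,
        Nat.mul_add_mod, Nat.mod_eq_of_lt hu']
    · intro u _
      refine chi_congr ?_
      have : ((3 * u % D : ℕ) : ℤ) = 3 * (u : ℤ) % (D : ℤ) := by push_cast; rfl
      rw [this]
      exact Int.dvd_self_sub_emod
  have k2 : ∑ j ∈ Finset.range D, jacobiSym (3 * (j : ℤ)) D =
      - ∑ j ∈ Finset.range D, jacobiSym (j : ℤ) D := by
    rw [← Finset.sum_neg_distrib]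
    exact Finset.sum_congr rfl fun j _ => chi_mul3 h _
  linarith

/-- The classes `u ≡ 1` modulo `3`. -/
private theorem one_class {D : ℕ} (h : D % 12 = 5) :
    (∑ u ∈ Finset.range D, if u % 3 = 1 then jacobiSym (u : ℤ) D else 0) =
      - ∑ j ∈ Finset.range D, if (D < 3 * j ∧ 3 * j < 2 * D) then jacobiSym (j : ℤ) D else 0 := by
  rw [← Finset.sum_filter, ← Finset.sum_filter, ← Finset.sum_neg_distrib]
  refine Finset.sum_nbij' (fun u => (u + D) / 3) (fun j => 3 * j - D) ?_ ?_ ?_ ?_ ?_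
  · intro u hu
    obtain ⟨h1, h2⟩ := Finset.mem_filter.1 hu
    have := Finset.mem_range.1 h1
    refine Finset.mem_filter.2 ⟨Finset.mem_range.2 ?_, ?_, ?_⟩ <;> omega
  · intro j hj
    obtain ⟨h1, h2, h3⟩ := Finset.mem_filter.1 hj
    have := Finset.mem_range.1 h1
    refine Finset.mem_filter.2 ⟨Finset.mem_range.2 ?_, ?_⟩ <;> omega
  · intro u hu
    obtain ⟨h1, h2⟩ := Finset.mem_filter.1 hu
    have := Finset.mem_range.1 h1
    change 3 * ((u + D) / 3) - D = u
    omega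
  · intro j hj
    obtain ⟨h1, h2, h3⟩ := Finset.mem_filter.1 hj
    have := Finset.mem_range.1 h1
    change (3 * j - D + D) / 3 = j
    omega
  · intro u hu
    obtain ⟨h1, h2⟩ := Finset.mem_filter.1 hu
    have hu' := Finset.mem_range.1 h1
    change jacobiSym (u : ℤ) D = - jacobiSym (((u + D) / 3 : ℕ) : ℤ) D
    rw [← chi_mul3 h]
    refine chi_congr ⟨-1, ?_⟩
    omega

private theorem coef {D : ℕ} (h : D % 12 = 5) (u : ℕ) :
    jacobiSym (u : ℤ) 3 * (u : ℤ) + jacobiSym ((u + D : ℕ) : ℤ) 3 * ((u + D : ℕ) : ℤ) +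
      jacobiSym ((u + 2 * D : ℕ) : ℤ) 3 * ((u + 2 * D : ℕ) : ℤ) =
      (D : ℤ) - 3 * (D : ℤ) * (if u % 3 = 1 then 1 else 0) := by
  have a0 : jacobiSym 0 3 = 0 := by norm_num
  have a1 : jacobiSym 1 3 = 1 := by norm_num
  have a2 : jacobiSym 2 3 = -1 := by norm_num
  rw [jacobiSym.mod_left (u : ℤ), jacobiSym.mod_left ((u + D : ℕ) : ℤ),
    jacobiSym.mod_left ((u + 2 * D : ℕ) : ℤ)]
  rcases (by omega : u % 3 = 0 ∨ u % 3 = 1 ∨ u % 3 = 2) with c | c | c
  · have b0 : (u : ℤ) % ((3 : ℕ) : ℤ) = 0 := by omega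
    have b1 : ((u + D : ℕ) : ℤ) % ((3 : ℕ) : ℤ) = 2 := by omega
    have b2 : ((u + 2 * D : ℕ) : ℤ) % ((3 : ℕ) : ℤ) = 1 := by omega
    rw [b0, b1, b2, a0, a1, a2, if_neg (by omega)]
    push_cast
    ring
  · have b0 : (u : ℤ) % ((3 : ℕ) : ℤ) = 1 := by omega
    have b1 : ((u + D : ℕ) : ℤ) % ((3 : ℕ) : ℤ) = 0 := by omega
    have b2 : ((u + 2 * D : ℕ) : ℤ) % ((3 : ℕ) : ℤ) = 2 := by omega
    rw [b0, b1, b2, a0, a1, a2, if_pos c]
    push_cast
    ring
  · have b0 : (u : ℤ) % ((3 : ℕ) : ℤ) = 2 := by omega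
    have b1 : ((u + D : ℕ) : ℤ) % ((3 : ℕ) : ℤ) = 1 := by omega
    have b2 : ((u + 2 * D : ℕ) : ℤ) % ((3 : ℕ) : ℤ) = 0 := by omega
    rw [b0, b1, b2, a0, a1, a2, if_neg (by omega)]
    push_cast
    ring

theorem hTDS : StTDS := by
  intro D hD _ h
  -- the three thirds
  have e1 : SE D = ∑ j ∈ Finset.range D, if 3 * j < D then jacobiSym (j : ℤ) D else 0 := by
    unfold SE
    rw [Finset.sum_filter]
  have e3 : (∑ j ∈ Finset.range D, if 3 * j < D then jacobiSym (j : ℤ) D else 0) =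
      ∑ j ∈ Finset.range D, if 2 * D < 3 * j then jacobiSym (j : ℤ) D else 0 :=
    refl_sum hD h _ _ fun j _ _ => by omega
  have e2 : (∑ j ∈ Finset.range D, if 3 * j < D then jacobiSym (j : ℤ) D else 0) +
      (∑ j ∈ Finset.range D, if (D < 3 * j ∧ 3 * j < 2 * D) then jacobiSym (j : ℤ) D else 0) +
      (∑ j ∈ Finset.range D, if 2 * D < 3 * j then jacobiSym (j : ℤ) D else 0) = 0 := by
    rw [← Finset.sum_add_distrib, ← Finset.sum_add_distrib]
    refine Eq.trans (Finset.sum_congr rfl fun j hj => ?_) (tot hD h)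
    have := Finset.mem_range.1 hj
    rcases (by omega : 3 * j < D ∨ (D < 3 * j ∧ 3 * j < 2 * D) ∨ 2 * D < 3 * j) with c | c | c
    · rw [if_pos c, if_neg (by omega), if_neg (by omega)]; ring
    · rw [if_neg (by omega), if_pos c, if_neg (by omega)]; ring
    · rw [if_neg (by omega), if_neg (by omega), if_pos c]; ring
  have e4 := one_class h
  have t := tot hD h
  -- the sum of length `3D`
  have : NeZero D := ⟨by omega⟩
  have hm : ∀ a : ℤ, jacobiSym a (3 * D) = jacobiSym a 3 * jacobiSym a D := fun a =>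
    jacobiSym.mul_right a 3 D
  have s : Pool.Agent.Helper28.T3.TD (3 * D) = ∑ u ∈ Finset.range D,
      jacobiSym (u : ℤ) D * ((D : ℤ) - 3 * (D : ℤ) * (if u % 3 = 1 then 1 else 0)) := by
    unfold Pool.Agent.Helper28.T3.TD
    have r3 : 3 * D = D + D + D := by ring
    rw [r3, Finset.sum_range_add, Finset.sum_range_add, ← r3, ← Finset.sum_add_distrib,
      ← Finset.sum_add_distrib]
    refine Finset.sum_congr rfl fun u _ => ?_
    rw [← coef h u, hm, hm, hm]
    have c1 : jacobiSym ((D + u : ℕ) : ℤ) D = jacobiSym (u : ℤ) D :=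
      chi_congr ⟨1, by push_cast; ring⟩
    have c2 : jacobiSym ((D + D + u : ℕ) : ℤ) D = jacobiSym (u : ℤ) D :=
      chi_congr ⟨2, by push_cast; ring⟩
    rw [c1, c2]
    have d1 : D + u = u + D := by ring
    have d2 : D + D + u = u + 2 * D := by ring
    rw [d1, d2]
    ring
  have s2 : (∑ u ∈ Finset.range D,
      jacobiSym (u : ℤ) D * ((D : ℤ) - 3 * (D : ℤ) * (if u % 3 = 1 then 1 else 0))) =
      (D : ℤ) * (∑ u ∈ Finset.range D, jacobiSym (u : ℤ) D) -
        3 * (D : ℤ) * (∑ u ∈ Finset.range D, if u % 3 = 1 then jacobiSym (u : ℤ) D else 0) := by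
    rw [Finset.mul_sum, Finset.mul_sum, ← Finset.sum_sub_distrib]
    refine Finset.sum_congr rfl fun u _ => ?_
    by_cases c : u % 3 = 1
    · rw [if_pos c, if_pos c]; ring
    · rw [if_neg c, if_neg c]; ring
  rw [s, s2, t, e4, e1]
  have m : (∑ j ∈ Finset.range D, if (D < 3 * j ∧ 3 * j < 2 * D) then jacobiSym (j : ℤ) D else 0) =
      -2 * ∑ j ∈ Finset.range D, if 3 * j < D then jacobiSym (j : ℤ) D else 0 := by
    rw [← e3] at e2
    linarith
  rw [m]
  ring

end Pool.Agent.Helper56.T3E
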